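import Pool.Agent.Helper1.UB.LW

/-! MP_be0fb5, all lattice-free tetrahedra: Kuhn-Sperner with the labels of the facets, and the normal form. -/

set_option autoImplicit false

namespace Pool.Agent.Helper21.TET

open Matrix Pool.Agent.Helper12.LW Pool.Agent.Helper1.UB
open Pool.Agent.Helper84.FL (Superbase pz pr labE kv labE_kv eq_of_pz)

/-- partial sums of a superbase in the order `σ` -/
def chainS (f : Fin 4 → Fin 3 → ℤ) (σ : Equiv.Perm (Fin 4)) (k : Fin 4) : Fin 3 → ℤ :=
  ∑ j : Fin 4, if j < k then f (σ j) else 0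

/-- the height of the chain `σ` with the facets in the order `ρ` -/
def RR (g : Fin 4 → Fin 3 → ℝ) (f : Fin 4 → Fin 3 → ℤ) (σ ρ : Equiv.Perm (Fin 4)) : ℝ :=
  ∑ k, g (ρ k) ⬝ᵥ toR (chainS f σ k)

/-- extension of a permutation of three indices to four -/
theorem exists_ext (π : Equiv.Perm (Fin 3)) : ∃ σ : Equiv.Perm (Fin 4),
    ∀ i : Fin 3, σ i.castSucc = (π i).castSucc := by
  classical
  set F : Fin 4 → Fin 4 := Fin.snoc (fun i => (π i).castSucc) (Fin.last 3) with hF
  have h1 : ∀ i : Fin 3, F i.castSucc = (π i).castSucc := fun i => by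
    rw [hF]
    exact Fin.snoc_castSucc (α := fun _ => Fin 4) _ _ _
  have h2 : F (Fin.last 3) = Fin.last 3 := by
    rw [hF]
    exact Fin.snoc_last (α := fun _ => Fin 4) _ _
  have hinj : Function.Injective F := by
    intro a b
    refine Fin.lastCases ?_ (fun i => ?_) a <;> refine Fin.lastCases ?_ (fun j => ?_) b
    · intro _; rfl
    · intro h
      rw [h1, h2] at h
      exact absurd h.symm (Fin.castSucc_ne_last _)
    · intro h
      rw [h1, h2] at h
      exact absurd h (Fin.castSucc_ne_last _)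
    · intro h
      rw [h1, h1] at h
      rw [π.injective (Fin.castSucc_injective 3 h)]
  exact ⟨Equiv.ofBijective F (Finite.injective_iff_bijective.1 hinj), h1⟩

/-- a spanning family of four vectors with sum zero controls the coordinates -/
theorem exists_ctrl (g : Fin 4 → Fin 3 → ℝ) (hg : ∑ j, g j = 0)
    (hspan : ∀ m : Fin 3 → ℝ, ∃ c : Fin 4 → ℝ, ∑ k, c k • g k = m) :
    ∃ A : ℝ, 0 < A ∧ ∀ (y : Fin 3 → ℝ) (T : ℝ), (∀ j, g j ⬝ᵥ y ≤ T) → ∀ k, |y k| ≤ A * T := by
  choose c hc using hspan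
  set C : ℝ := ∑ k : Fin 3, ∑ j, |c (Pi.single k 1) j| with hC
  have hC0 : 0 ≤ C := Finset.sum_nonneg (fun k _ => Finset.sum_nonneg (fun j _ => abs_nonneg _))
  refine ⟨5 * C + 1, by linarith, ?_⟩
  intro y T hT k
  have hsum : ∑ j, g j ⬝ᵥ y = 0 := by
    have h2 : ∑ j, g j ⬝ᵥ y = (∑ j, g j) ⬝ᵥ y := by
      simp only [dotProduct, Finset.sum_apply, Finset.sum_mul]
      exact Finset.sum_comm
    rw [h2, hg, zero_dotProduct]
  have hT0 : 0 ≤ T := by
    have h3 : ∑ j : Fin 4, g j ⬝ᵥ y ≤ ∑ _j : Fin 4, T := Finset.sum_le_sum (fun j _ => hT j)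
    rw [hsum] at h3
    simp at h3
    linarith
  set a := c (Pi.single k 1) with ha
  have hrep : y k = ∑ j, a j * (g j ⬝ᵥ y) := by
    have h2 : (∑ j, a j • g j) ⬝ᵥ y = y k := by
      rw [ha, hc, single_dotProduct, one_mul]
    rw [← h2]
    simp only [dotProduct, Finset.sum_apply, Pi.smul_apply, smul_eq_mul, Finset.sum_mul,
      Finset.mul_sum]
    rw [Finset.sum_comm]
    exact Finset.sum_congr rfl (fun j _ => Finset.sum_congr rfl (fun i _ => by ring))
  set C' : ℝ := ∑ j, |a j| with hC'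
  have hC'le : C' ≤ C := by
    rw [hC', hC, ha]
    exact Finset.single_le_sum (f := fun k : Fin 3 => ∑ j, |c (Pi.single k 1) j|)
      (fun k _ => Finset.sum_nonneg (fun j _ => abs_nonneg _)) (Finset.mem_univ k)
  have haj : ∀ j, |a j| ≤ C' := fun j =>
    Finset.single_le_sum (f := fun j => |a j|) (fun j _ => abs_nonneg _) (Finset.mem_univ j)
  have hC'0 : 0 ≤ C' := Finset.sum_nonneg (fun j _ => abs_nonneg _)
  have key : ∀ s : ℝ, |s| = 1 → s * y k ≤ 5 * C' * T := by
    intro s hs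
    have h4 : s * y k = ∑ j, (s * a j + C') * (g j ⬝ᵥ y) := by
      have e1 : ∑ j, (s * a j + C') * (g j ⬝ᵥ y) = s * ∑ j, a j * (g j ⬝ᵥ y) + C' * ∑ j, g j ⬝ᵥ y := by
        rw [Finset.mul_sum, Finset.mul_sum, ← Finset.sum_add_distrib]
        exact Finset.sum_congr rfl (fun j _ => by ring)
      rw [e1, hsum, ← hrep]
      ring
    have hsa : ∀ j, |s * a j| ≤ C' := by
      intro j
      rw [abs_mul, hs, one_mul]
      exact haj j
    have h5 : ∑ j, (s * a j + C') * (g j ⬝ᵥ y) ≤ ∑ j, (s * a j + C') * T := by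
      refine Finset.sum_le_sum (fun j _ => ?_)
      have := (abs_le.1 (hsa j)).1
      exact mul_le_mul_of_nonneg_left (hT j) (by linarith)
    have h6 : ∑ j, (s * a j + C') ≤ 5 * C' := by
      rw [Finset.sum_add_distrib]
      have h7 : ∑ j, s * a j ≤ C' := by
        rw [hC']
        refine Finset.sum_le_sum (fun j _ => ?_)
        calc s * a j ≤ |s * a j| := le_abs_self _
          _ = |a j| := by rw [abs_mul, hs, one_mul]
      simp only [Finset.sum_const, Finset.card_univ, Fintype.card_fin, nsmul_eq_mul]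
      push_cast
      linarith
    rw [← Finset.sum_mul] at h5
    rw [h4]
    exact h5.trans (mul_le_mul_of_nonneg_right h6 hT0)
  have h8 : |y k| ≤ 5 * C' * T := by
    rw [abs_le]
    have a1 := key 1 (by simp)
    have a2 := key (-1) (by simp)
    constructor <;> linarith
  refine h8.trans ?_
  exact mul_le_mul_of_nonneg_right (by linarith) hT0

/-- the only relations are the multiples of the sum -/
theorem rel_const (g : Fin 4 → Fin 3 → ℝ) (hg : ∑ j, g j = 0)
    (hspan : ∀ m : Fin 3 → ℝ, ∃ c : Fin 4 → ℝ, ∑ k, c k • g k = m)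
    (m : Fin 4 → ℝ) (hm : ∑ j, m j • g j = 0) : ∀ j, m j = m 3 := by
  have hg3 : g 3 = -(g 0 + g 1 + g 2) := by
    rw [Fin.sum_univ_four] at hg
    rw [eq_neg_iff_add_eq_zero, add_comm]
    exact hg
  set N : Matrix (Fin 3) (Fin 3) ℝ := Matrix.of ![g 0, g 1, g 2] with hN
  have hvec : ∀ c : Fin 4 → ℝ, (![c 0 - c 3, c 1 - c 3, c 2 - c 3] : Fin 3 → ℝ) ᵥ* N = ∑ k, c k • g k := by
    intro c
    funext i
    rw [Fin.sum_univ_four, hg3]
    simp only [Matrix.vecMul, dotProduct, Fin.sum_univ_three, hN, Matrix.of_apply,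
      Matrix.cons_val_zero, Matrix.cons_val_one, Matrix.cons_val, Pi.add_apply, Pi.smul_apply,
      Pi.neg_apply, smul_eq_mul]
    ring
  choose c hc using hspan
  have hunit : IsUnit N.det := by
    apply Matrix.isUnit_det_of_left_inverse
      (B := Matrix.of fun k => (![c (Pi.single k 1) 0 - c (Pi.single k 1) 3,
        c (Pi.single k 1) 1 - c (Pi.single k 1) 3, c (Pi.single k 1) 2 - c (Pi.single k 1) 3] :
        Fin 3 → ℝ))
    ext k i
    have h1 := congrFun (hvec (c (Pi.single k 1))) i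
    rw [hc] at h1
    rw [Matrix.mul_apply]
    rw [Matrix.vecMul, dotProduct] at h1
    simp only [Matrix.of_apply]
    rw [h1, Matrix.one_apply, Pi.single_apply]
    simp only [eq_comm]
  have h2 := hvec m
  rw [hm] at h2
  have h3 := Matrix.eq_zero_of_vecMul_eq_zero hunit.ne_zero h2
  have e0 := congrFun h3 0
  have e1 := congrFun h3 1
  have e2 := congrFun h3 2
  simp only [Matrix.cons_val_zero, Matrix.cons_val_one, Matrix.cons_val, Pi.zero_apply] at e0 e1 e2
  intro j
  fin_cases j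
  · show m 0 = m 3
    linarith
  · show m 1 = m 3
    linarith
  · show m 2 = m 3
    linarith
  · rfl

/-- **Kuhn-Sperner with the labels of the facets** -/
theorem sperner_simplex (g : Fin 4 → Fin 3 → ℝ) (b : Fin 4 → ℝ) (hg : ∑ j, g j = 0)
    (hspan : ∀ m : Fin 3 → ℝ, ∃ c : Fin 4 → ℝ, ∑ k, c k • g k = m)
    (hfree : ∀ z : Fin 3 → ℤ, ∃ j, b j ≤ g j ⬝ᵥ toR z)
    (f : Fin 4 → Fin 3 → ℤ) (hf : ∑ l, f l = 0) (hdet : IsUnit (Matrix.of ![f 0, f 1, f 2]).det) :
    ∃ (z : Fin 3 → ℤ) (σ ρ : Equiv.Perm (Fin 4)), ∀ k, b (ρ k) ≤ g (ρ k) ⬝ᵥ toR (z + chainS f σ k) := by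
  classical
  have hsb := Pool.Agent.Helper1.UB.LW.superbase_of_det f hf hdet
  have hex : ∀ z : Fin 3 → ℤ, ∃ j, ∀ i, g i ⬝ᵥ toR z - b i ≤ g j ⬝ᵥ toR z - b j := fun z =>
    Finite.exists_max (fun j => g j ⬝ᵥ toR z - b j)
  choose J hJ using hex
  have hJ0 : ∀ z, b (J z) ≤ g (J z) ⬝ᵥ toR z := by
    intro z
    obtain ⟨j, hj⟩ := hfree z
    have := hJ z j
    linarith
  obtain ⟨A, hA, hctrl⟩ := exists_ctrl g hg hspan
  obtain ⟨C, hC, hlarge⟩ := reE_large f hsb
  set D : ℝ := ∑ i : Fin 3, ∑ k : Fin 3, |(f i.castSucc k : ℝ)| with hD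
  have hD0 : 0 ≤ D := Finset.sum_nonneg (fun i _ => Finset.sum_nonneg (fun k _ => abs_nonneg _))
  set B : ℝ := ∑ j, |b j| with hB
  have hB0 : 0 ≤ B := Finset.sum_nonneg (fun j _ => abs_nonneg _)
  have hBj : ∀ j, |b j| ≤ B := fun j =>
    Finset.single_le_sum (f := fun j => |b j|) (fun j _ => abs_nonneg _) (Finset.mem_univ j)
  set G : ℝ := ∑ j, ∑ i : Fin 3, |g j i| with hG
  have hG0 : 0 ≤ G := Finset.sum_nonneg (fun j _ => Finset.sum_nonneg (fun k _ => abs_nonneg _))
  set T : ℝ := D + A * (2 * B + G * D + 1) + 1 with hT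
  have hT0 : 0 < T := by positivity
  obtain ⟨M, hM⟩ := exists_nat_ge (C * T)
  have hM0 : 0 < M := by
    have h1 : (0 : ℝ) < M := lt_of_lt_of_le (mul_pos hC hT0) hM
    exact_mod_cast h1
  obtain ⟨z, π, mu, hmu, hmu0, hsum⟩ := kuhn_zero
    (fun v i => pz (g (J (labE f v))) (f i.castSucc)) M hM0
    (by
      intro x hxM ⟨i, hi⟩ v hv
      show 0 < ∑ i : Fin 3, pz (g (J (labE f v))) (f i.castSucc) * x i
      rw [← pr_reE]
      obtain ⟨k, hk⟩ := hlarge x i T hT0 (by rw [hi]; exact hM)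
      have hdiff : ∀ m, |(labE f v m : ℝ) - reE f x m| ≤ D := by
        intro m
        rw [labE_real]
        unfold reE
        rw [← Finset.sum_sub_distrib]
        refine (Finset.abs_sum_le_sum_abs _ _).trans ?_
        refine Finset.sum_le_sum (fun j _ => ?_)
        rw [← sub_mul, abs_mul]
        have h1 : |(v j : ℝ) - x j| ≤ 1 := by
          rw [abs_sub_comm]; exact hv j
        have h2 : |(f j.castSucc m : ℝ)| ≤ ∑ k : Fin 3, |(f j.castSucc k : ℝ)| :=
          Finset.single_le_sum (f := fun k : Fin 3 => |(f j.castSucc k : ℝ)|)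
            (fun k _ => abs_nonneg _) (Finset.mem_univ m)
        calc |(v j : ℝ) - x j| * |(f j.castSucc m : ℝ)| ≤ 1 * |(f j.castSucc m : ℝ)| :=
              mul_le_mul_of_nonneg_right h1 (abs_nonneg _)
          _ ≤ _ := by rw [one_mul]; exact h2
      set w := labE f v with hw
      set j := J w with hj
      set s : ℝ := g j ⬝ᵥ toR w - b j with hs
      have h1 : ∀ i, g i ⬝ᵥ toR w ≤ s + B := by
        intro i
        have a1 := hJ w i
        have a2 := (abs_le.1 (hBj i)).2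
        have a3 : g i ⬝ᵥ toR w - b i ≤ s := a1
        linarith
      have h2 := hctrl (toR w) (s + B) h1 k
      have h3 : |toR w k| ≥ T - D := by
        have a1 : |reE f x k| ≤ |toR w k| + |(labE f v k : ℝ) - reE f x k| := by
          have a2 := abs_sub_abs_le_abs_sub (reE f x k) (labE f v k : ℝ)
          rw [abs_sub_comm] at a2
          have a3 : |toR w k| = |(labE f v k : ℝ)| := rfl
          linarith
        have a2 := hdiff k
        linarith
      have h4 : 2 * B + G * D + 1 < s + B := by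
        by_contra hcon
        push Not at hcon
        have h5 : A * (s + B) ≤ A * (2 * B + G * D + 1) := mul_le_mul_of_nonneg_left hcon hA.le
        linarith
      have h5 : |g j ⬝ᵥ (toR w - reE f x)| ≤ G * D := by
        unfold dotProduct
        refine (Finset.abs_sum_le_sum_abs _ _).trans ?_
        have h6 : ∑ i : Fin 3, |g j i| ≤ G := by
          rw [hG]
          exact Finset.single_le_sum (f := fun j => ∑ i : Fin 3, |g j i|)
            (fun j _ => Finset.sum_nonneg (fun i _ => abs_nonneg _)) (Finset.mem_univ j)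
        calc ∑ i : Fin 3, |g j i * (toR w - reE f x) i| ≤ ∑ i : Fin 3, |g j i| * D := by
              refine Finset.sum_le_sum (fun i _ => ?_)
              rw [abs_mul]
              exact mul_le_mul_of_nonneg_left (hdiff i) (abs_nonneg _)
          _ = (∑ i : Fin 3, |g j i|) * D := by rw [Finset.sum_mul]
          _ ≤ G * D := mul_le_mul_of_nonneg_right h6 hD0
      have h6 : pr (g j) (reE f x) = g j ⬝ᵥ toR w - g j ⬝ᵥ (toR w - reE f x) := by
        rw [dotProduct_sub, sub_sub_cancel]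
        rfl
      rw [h6]
      have h7 := (abs_le.1 h5).2
      have h8 := (abs_le.1 (hBj j)).1
      linarith)
  set jk : Fin 4 → Fin 4 := fun k => J (labE f (kv z π k)) with hjk
  have hw0 : ∑ k : Fin 4, mu k • g (jk k) = 0 := by
    apply eq_of_pz f hsb
    have hadd : ∀ (u : Fin 3 → ℤ), pz (∑ k : Fin 4, mu k • g (jk k)) u = ∑ k : Fin 4, mu k * pz (g (jk k)) u := by
      intro u
      unfold pz
      simp only [Finset.sum_apply, Pi.smul_apply, smul_eq_mul, Finset.sum_mul, Finset.mul_sum]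
      rw [Finset.sum_comm]
      exact Finset.sum_congr rfl (fun i _ => Finset.sum_congr rfl (fun k _ => by ring))
    have hzero : ∀ (u : Fin 3 → ℤ), pz (0 : Fin 3 → ℝ) u = 0 := by
      intro u
      simp [pz]
    have h3 : ∀ i : Fin 3, pz (∑ k : Fin 4, mu k • g (jk k)) (f i.castSucc) = 0 := by
      intro i
      rw [hadd]
      exact hsum i
    intro l
    rw [hzero]
    refine Fin.lastCases ?_ (fun i => h3 i) l
    have h4 : f (Fin.last 3) = -∑ i : Fin 3, f i.castSucc := by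
      rw [Fin.sum_univ_castSucc] at hf
      exact eq_neg_of_add_eq_zero_right hf
    have h5 : ∀ (n : Fin 3 → ℝ), pz n (f (Fin.last 3)) = -∑ i : Fin 3, pz n (f i.castSucc) := by
      intro n
      rw [h4]
      unfold pz
      simp only [Pi.neg_apply, Finset.sum_apply, Int.cast_neg, Int.cast_sum, mul_neg,
        Finset.sum_neg_distrib, Finset.mul_sum, neg_inj]
      exact Finset.sum_comm
    rw [h5, Finset.sum_eq_zero (fun i _ => h3 i), neg_zero]
  set m : Fin 4 → ℝ := fun i => ∑ k : Fin 4, if jk k = i then mu k else 0 with hm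
  have hmsum : ∑ i, m i • g i = 0 := by
    rw [← hw0]
    simp only [hm, Finset.sum_smul]
    rw [Finset.sum_comm]
    refine Finset.sum_congr rfl (fun k _ => ?_)
    simp only [ite_smul, zero_smul]
    rw [Finset.sum_ite_eq]
    simp
  have hconst := rel_const g hg hspan m hmsum
  have hpos : 0 < m (jk 0) := by
    have h1 : mu 0 ≤ m (jk 0) := by
      rw [hm]
      have h2 := Finset.single_le_sum (f := fun k : Fin 4 => if jk k = jk 0 then mu k else 0)
        (fun k _ => by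
          by_cases h : jk k = jk 0
          · simp only [h, if_true]
            exact hmu k
          · simp only [h, if_false]
            exact le_refl _) (Finset.mem_univ (0 : Fin 4))
      simpa using h2
    linarith
  have hsurj : Function.Surjective jk := by
    intro i
    by_contra hcon
    push Not at hcon
    have h1 : m i = 0 := by
      rw [hm]
      refine Finset.sum_eq_zero (fun k _ => ?_)
      rw [if_neg (hcon k)]
    have h2 := hconst i
    have h3 := hconst (jk 0)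
    rw [h1] at h2
    rw [← h2] at h3
    linarith
  obtain ⟨σ, hσ⟩ := exists_ext π
  refine ⟨labE f z, σ, Equiv.ofBijective jk (Finite.surjective_iff_bijective.1 hsurj), ?_⟩
  intro k
  have hP : labE f z + chainS f σ k = labE f (kv z π k) := by
    rw [Pool.Agent.Helper1.UB.LW.labE_chain f z π k (by omega)]
    congr 1
    unfold chainS
    rw [Fin.sum_univ_castSucc]
    have h1 : ¬ (Fin.last 3 < k) := not_lt.2 (Fin.le_last k)
    rw [if_neg h1, add_zero]
    refine Finset.sum_congr rfl (fun j _ => ?_)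
    rw [hσ]
    have h2 : (Fin.castSucc j < k) ↔ ((j : ℕ) < (k : ℕ)) := Iff.rfl
    by_cases h3 : (j : ℕ) < (k : ℕ)
    · rw [if_pos (h2.2 h3), if_pos h3]
    · rw [if_neg (fun h => h3 (h2.1 h)), if_neg h3]
  rw [hP]
  exact hJ0 _

theorem toR_add' (a c : Fin 3 → ℤ) : toR (a + c) = toR a + toR c := by
  funext i
  simp [toR]

theorem dot_sum_zero (g : Fin 4 → Fin 3 → ℝ) (hg : ∑ j, g j = 0) (ρ : Equiv.Perm (Fin 4))
    (y : Fin 3 → ℝ) : ∑ k, g (ρ k) ⬝ᵥ y = 0 := by
  have h1 : ∑ k, g (ρ k) ⬝ᵥ y = ∑ k, g k ⬝ᵥ y := Equiv.sum_comp ρ (fun j => g j ⬝ᵥ y)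
  have h2 : ∑ j, g j ⬝ᵥ y = (∑ j, g j) ⬝ᵥ y := by
    simp only [dotProduct, Finset.sum_apply, Finset.sum_mul]
    exact Finset.sum_comm
  rw [h1, h2, hg, zero_dotProduct]

/-- the maximal height is at least one -/
theorem one_le_RR (g : Fin 4 → Fin 3 → ℝ) (b : Fin 4 → ℝ) (hg : ∑ j, g j = 0) (hb : ∑ j, b j = 1)
    (hspan : ∀ m : Fin 3 → ℝ, ∃ c : Fin 4 → ℝ, ∑ k, c k • g k = m)
    (hfree : ∀ z : Fin 3 → ℤ, ∃ j, b j ≤ g j ⬝ᵥ toR z)
    (f : Fin 4 → Fin 3 → ℤ) (hf : ∑ l, f l = 0) (hdet : IsUnit (Matrix.of ![f 0, f 1, f 2]).det) :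
    ∃ σ ρ : Equiv.Perm (Fin 4), 1 ≤ RR g f σ ρ := by
  obtain ⟨z, σ, ρ, h⟩ := sperner_simplex g b hg hspan hfree f hf hdet
  refine ⟨σ, ρ, ?_⟩
  have h1 : ∑ k, b (ρ k) = 1 := by
    rw [Equiv.sum_comp ρ b, hb]
  have h2 : ∑ k, b (ρ k) ≤ ∑ k, g (ρ k) ⬝ᵥ toR (z + chainS f σ k) :=
    Finset.sum_le_sum (fun k _ => h k)
  have h3 : ∑ k, g (ρ k) ⬝ᵥ toR (z + chainS f σ k) = RR g f σ ρ := by
    unfold RR
    simp only [toR_add', dotProduct_add]
    rw [Finset.sum_add_distrib, dot_sum_zero g hg, zero_add]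
  linarith

theorem RR_comp (g : Fin 4 → Fin 3 → ℝ) (f : Fin 4 → Fin 3 → ℤ) (σ ρ σ' ρ' : Equiv.Perm (Fin 4)) :
    RR (fun j => g (ρ j)) (fun l => f (σ l)) σ' ρ' = RR g f (σ * σ') (ρ * ρ') := by
  unfold RR chainS
  rfl

/-- **the normal form**: after renaming the facets and the vectors of the superbase, the identity chain has
maximal height, and it is at least one -/
theorem normal_form (g : Fin 4 → Fin 3 → ℝ) (b : Fin 4 → ℝ) (hg : ∑ j, g j = 0) (hb : ∑ j, b j = 1)
    (hspan : ∀ m : Fin 3 → ℝ, ∃ c : Fin 4 → ℝ, ∑ k, c k • g k = m)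
    (hfree : ∀ z : Fin 3 → ℤ, ∃ j, b j ≤ g j ⬝ᵥ toR z)
    (f : Fin 4 → Fin 3 → ℤ) (hf : ∑ l, f l = 0) (hdet : IsUnit (Matrix.of ![f 0, f 1, f 2]).det) :
    ∃ σ ρ : Equiv.Perm (Fin 4), 1 ≤ RR (fun j => g (ρ j)) (fun l => f (σ l)) 1 1 ∧
      ∀ σ' ρ' : Equiv.Perm (Fin 4), RR (fun j => g (ρ j)) (fun l => f (σ l)) σ' ρ' ≤
        RR (fun j => g (ρ j)) (fun l => f (σ l)) 1 1 := by
  obtain ⟨σ0, ρ0, h0⟩ := one_le_RR g b hg hb hspan hfree f hf hdet
  obtain ⟨q, hq⟩ := Finite.exists_max (fun q : Equiv.Perm (Fin 4) × Equiv.Perm (Fin 4) =>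
    RR g f q.1 q.2)
  refine ⟨q.1, q.2, ?_, ?_⟩
  · rw [RR_comp, mul_one, mul_one]
    exact h0.trans (hq (σ0, ρ0))
  · intro σ' ρ'
    rw [RR_comp, RR_comp, mul_one, mul_one]
    exact hq (q.1 * σ', q.2 * ρ')

end Pool.Agent.Helper21.TET
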